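import Pool.Agent.H38.AE.Targets

/-! Module HP: determinants of monomials at points of the curve `a x ^ e + b y ^ f = E` that are
congruent modulo a prime `ℓ`. -/

set_option autoImplicit false

namespace Pool.Agent.H52.AE

open Pool.Agent.H38.AE
open Polynomial Matrix

/-- The determinant of the values of `s` polynomials at `s` congruent points. -/
theorem det_poly (ℓ : ℤ) : ∀ (s : ℕ) (g : Fin s → ℤ[X]) (x : Fin s → ℤ),
    (∀ i j, ℓ ∣ x i - x j) →
    ℓ ^ (s * (s - 1) / 2) ∣ Matrix.det (fun i j : Fin s => (g j).eval (x i)) := by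
  intro s
  induction s with
  | zero => intro g x h; simp
  | succ s ih =>
    intro g x h
    have hdiv : ∀ j, ∃ q : ℤ[X], g j - C ((g j).eval (x 0)) = (X - C (x 0)) * q := by
      intro j
      exact Polynomial.X_sub_C_dvd_sub_C_eval (p := g j) (a := x 0)
    choose q hq using hdiv
    have hval : ∀ j i, (g j).eval (x i) = (x i - x 0) * (q j).eval (x i) + (g j).eval (x 0) := by
      intro j i
      have h1 := congrArg (fun p : ℤ[X] => p.eval (x i)) (hq j)
      simp only [eval_sub, eval_C, eval_mul, eval_X] at h1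
      linarith
    let B : Matrix (Fin (s + 1)) (Fin (s + 1)) ℤ := fun i j =>
      if i = 0 then (g j).eval (x 0) else (x i - x 0) * (q j).eval (x i)
    have hAB : Matrix.det (fun i j : Fin (s + 1) => (g j).eval (x i)) = Matrix.det B := by
      refine Matrix.det_eq_of_forall_row_eq_smul_add_const
        (fun i : Fin (s + 1) => if i = 0 then (0 : ℤ) else 1) 0 (by simp) ?_
      intro i j
      by_cases hi : i = 0
      · subst hi
        simp [B]
      · simp only [B, hi, if_false, if_true, one_mul]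
        exact hval j i
    rw [hAB, Matrix.det_succ_row_zero]
    apply Finset.dvd_sum
    intro j _
    apply Dvd.dvd.mul_left
    have hsub : B.submatrix Fin.succ j.succAbove = Matrix.of (fun i j' : Fin s =>
        (x i.succ - x 0) * (fun i j' : Fin s => (q (j.succAbove j')).eval (x i.succ)) i j') := by
      ext i j'
      simp [B]
    rw [hsub, Matrix.det_mul_column, Nat.triangle_succ, pow_add, mul_comm (ℓ ^ (s * (s - 1) / 2))]
    apply mul_dvd_mul
    · have h2 : ∏ _i : Fin s, ℓ ∣ ∏ i : Fin s, (x i.succ - x 0) :=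
        Finset.prod_dvd_prod_of_dvd _ _ (fun i _ => h i.succ 0)
      simpa using h2
    · exact ih (fun j' => q (j.succAbove j')) (fun i => x i.succ) (fun i i' => h i.succ i'.succ)

/-- Two integer matrices that agree modulo `m` have determinants that agree modulo `m`. -/
theorem det_congr {s : ℕ} (m : ℤ) (A B : Matrix (Fin s) (Fin s) ℤ)
    (h : ∀ i j, m ∣ A i j - B i j) : m ∣ A.det - B.det := by
  rw [← Ideal.mem_span_singleton, ← Ideal.Quotient.eq, RingHom.map_det, RingHom.map_det]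
  congr 1
  ext i j
  simp only [RingHom.mapMatrix_apply, Matrix.map_apply]
  rw [Ideal.Quotient.eq, Ideal.mem_span_singleton]
  exact h i j

/-- Hensel lifting by polynomials: `y` is a polynomial function of `x` modulo `ℓ ^ m`. -/
theorem hensel (ℓ : ℕ) (hℓ : ℓ.Prime) (a b E : ℤ) (e f s : ℕ) (hb : ¬ (ℓ : ℤ) ∣ b)
    (hf : ¬ ℓ ∣ f) (x y : Fin s → ℤ) (i0 : Fin s) (hy0 : ¬ (ℓ : ℤ) ∣ y i0)
    (hc : ∀ i, a * x i ^ e + b * y i ^ f = E)
    (hy : ∀ i j, (ℓ : ℤ) ∣ y i - y j) (m : ℕ) :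
    ∃ φ : ℤ[X], ∀ i, (ℓ : ℤ) ^ (m + 1) ∣ y i - φ.eval (x i) := by
  have hp : Prime (ℓ : ℤ) := Nat.prime_iff_prime_int.1 hℓ
  have hu : ¬ (ℓ : ℤ) ∣ b * f * y i0 ^ (f - 1) := by
    intro h
    rcases hp.dvd_or_dvd h with h | h
    · rcases hp.dvd_or_dvd h with h | h
      · exact hb h
      · exact hf (by exact_mod_cast h)
    · exact hy0 (hp.dvd_of_dvd_pow h)
  have hcop : IsCoprime (b * f * y i0 ^ (f - 1)) (ℓ : ℤ) :=
    ((Prime.coprime_iff_not_dvd hp).2 hu).symm
  obtain ⟨c, d, hcd⟩ := hcop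
  induction m with
  | zero =>
    refine ⟨C (y i0), fun i => ?_⟩
    simpa using hy i i0
  | succ m ih =>
    obtain ⟨φ, hφ⟩ := ih
    refine ⟨φ - C c * (C a * X ^ e + C b * φ ^ f - C E), fun i => ?_⟩
    obtain ⟨t, ht⟩ := hφ i
    set u := φ.eval (x i) with hu'
    have hyi : y i = u + (ℓ : ℤ) ^ (m + 1) * t := by linarith
    have hval : (φ - C c * (C a * X ^ e + C b * φ ^ f - C E)).eval (x i) =
        u - c * (a * x i ^ e + b * u ^ f - E) := by
      simp [hu']
    rw [hval]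
    obtain ⟨k, hk⟩ := Polynomial.powAddExpansion u ((ℓ : ℤ) ^ (m + 1) * t) f
    have hE : a * x i ^ e + b * u ^ f - E =
        - b * (f * u ^ (f - 1) * ((ℓ : ℤ) ^ (m + 1) * t) + k * ((ℓ : ℤ) ^ (m + 1) * t) ^ 2) := by
      have h1 := hc i
      rw [hyi, hk] at h1
      linarith
    have hu0 : (ℓ : ℤ) ∣ u - y i0 := by
      have h2 := hy i i0
      have h3 : (ℓ : ℤ) ∣ y i - u := (dvd_pow_self _ (Nat.succ_ne_zero m)).trans (hφ i)
      have h4 : u - y i0 = (y i - y i0) - (y i - u) := by ring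
      rw [h4]
      exact dvd_sub h2 h3
    have hpw : (ℓ : ℤ) ∣ u ^ (f - 1) - y i0 ^ (f - 1) := hu0.trans (sub_dvd_pow_sub_pow _ _ _)
    obtain ⟨w, hw⟩ := hpw
    have hw' : u ^ (f - 1) = y i0 ^ (f - 1) + ℓ * w := by linarith
    rw [hE, hyi, hw']
    refine ⟨t * d - t * c * b * f * w - c * b * k * (ℓ : ℤ) ^ m * t ^ 2, ?_⟩
    have hcd' : d * (ℓ : ℤ) = 1 - c * (b * f * y i0 ^ (f - 1)) := by linarith
    linear_combination (-((ℓ : ℤ) ^ (m + 1) * t)) * hcd'

/-- The case in which `ℓ` does not divide the second coordinates. -/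
theorem case_one (ℓ : ℕ) (hℓ : ℓ.Prime) (a b E : ℤ) (e f s : ℕ) (hb : ¬ (ℓ : ℤ) ∣ b)
    (hf : ¬ ℓ ∣ f) (x y : Fin s → ℤ) (k l : Fin s → ℕ) (i0 : Fin s) (hy0 : ¬ (ℓ : ℤ) ∣ y i0)
    (hc : ∀ i, a * x i ^ e + b * y i ^ f = E)
    (hx : ∀ i j, (ℓ : ℤ) ∣ x i - x j) (hy : ∀ i j, (ℓ : ℤ) ∣ y i - y j) :
    (ℓ : ℤ) ^ (s * (s - 1) / 2) ∣ Matrix.det (fun i j : Fin s => x i ^ k j * y i ^ l j) := by
  obtain ⟨φ, hφ⟩ := hensel ℓ hℓ a b E e f s hb hf x y i0 hy0 hc hy (s * (s - 1) / 2)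
  have h1 := det_poly (ℓ : ℤ) s (fun j => X ^ k j * φ ^ l j) x hx
  have h2 : (ℓ : ℤ) ^ (s * (s - 1) / 2) ∣
      Matrix.det (fun i j : Fin s => x i ^ k j * y i ^ l j) -
      Matrix.det (fun i j : Fin s => (X ^ k j * φ ^ l j : ℤ[X]).eval (x i)) := by
    apply det_congr
    intro i j
    have h3 : (x i ^ k j * y i ^ l j) - (X ^ k j * φ ^ l j : ℤ[X]).eval (x i) =
        x i ^ k j * (y i ^ l j - (φ.eval (x i)) ^ l j) := by
      simp only [eval_mul, eval_pow, eval_X]
      ring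
    show _ ∣ (x i ^ k j * y i ^ l j) - (X ^ k j * φ ^ l j : ℤ[X]).eval (x i)
    rw [h3]
    apply Dvd.dvd.mul_left
    exact ((pow_dvd_pow _ (Nat.le_succ _)).trans (hφ i)).trans (sub_dvd_pow_sub_pow _ _ _)
  have h4 := dvd_add h2 h1
  simpa using h4

/-- HP: determinants of monomials at points of the curve that are congruent modulo `ℓ`. -/
theorem pf_HP : T_HP := by
  intro ℓ a b E e f s hℓ he hf2 ha hb hE he' hf' x y k l hc hx hy
  rcases Nat.eq_zero_or_pos s with hs | hs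
  · subst hs
    simp
  have hp : Prime (ℓ : ℤ) := Nat.prime_iff_prime_int.1 hℓ
  let i0 : Fin s := ⟨0, hs⟩
  by_cases hy0 : (ℓ : ℤ) ∣ y i0
  · have hx0 : ¬ (ℓ : ℤ) ∣ x i0 := by
      intro hx0
      apply hE
      rw [← hc i0]
      exact dvd_add (Dvd.dvd.mul_left (dvd_pow hx0 (by omega)) _)
        (Dvd.dvd.mul_left (dvd_pow hy0 (by omega)) _)
    have h1 := case_one ℓ hℓ b a E f e s ha he' y x l k i0 hx0
      (fun i => by rw [← hc i]; ring) hy hx
    have h2 : (fun i j : Fin s => y i ^ l j * x i ^ k j) =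
        (fun i j : Fin s => x i ^ k j * y i ^ l j) := by
      funext i j
      ring
    rwa [h2] at h1
  · exact case_one ℓ hℓ a b E e f s hb hf' x y k l i0 hy0 hc hx hy

end Pool.Agent.H52.AE
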